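import Pool.Agent.H398.Kt.MainC
import Pool.Agent.H398.Gam.Assemble2

/-!
# MP_13b5a2_al, all primes, all finite groups, all modules: the values of gamma between 1 and 2

The exceptional second alternative contains an endotrivial module `L` with `γ(L) ≠ 1`, which does
not exist by a known theorem (listed as known in the problem file).
-/

set_option autoImplicit false

namespace Pool.Agent.Results.MP_13b5a2_al.AllPrimes

open Pool.Agent.H398.Gam Ob

universe u v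

theorem result (p : ℕ) [Fact p.Prime] (k : Type u) [Field k] [CharP k p]
    (G : Type v) [Group G] [Fintype G] (M : Ob k G) (h1 : 1 < M.gamma) (h2 : M.gamma < 2) :
    (∃ i : ℕ, 4 ≤ p ^ i ∧ M.gamma = 2 * Real.cos (Real.pi / (p ^ i : ℕ)) ∧
      ∀ n : ℕ, 4 ≤ n → M.gamma = 2 * Real.cos (Real.pi / n) → n = p ^ i) ∨
    (p ≠ 2 ∧ (¬ ∃ P Q : Ob k G, P.IsProj ∧ Q.IsProj ∧ (M.prod P).Iso (M.dual.prod Q)) ∧
      ∃ L : Ob k G, L.Endotrivial ∧ L.gamma ≠ 1 ∧
        (L = M ∨ ∃ P : Ob k G, P.IsProj ∧ (M.dual.tens L).Iso (M.prod P))) := by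
  have key : ∀ i : ℕ, 4 ≤ p ^ i → M.gamma = 2 * Real.cos (Real.pi / (p ^ i : ℕ)) →
      ∃ i : ℕ, 4 ≤ p ^ i ∧ M.gamma = 2 * Real.cos (Real.pi / (p ^ i : ℕ)) ∧
      ∀ n : ℕ, 4 ≤ n → M.gamma = 2 * Real.cos (Real.pi / n) → n = p ^ i := by
    intro i hi hv
    refine ⟨i, hi, hv, fun n hn h => ?_⟩
    exact cos_inj _ _ (by omega) (by omega) (by rw [← h, hv])
  have hM : ¬ M.IsProj := by
    intro hp
    rw [gamma_isProj hH M hp] at h1
    linarith
  by_cases hp : p = 2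
  · left
    subst hp
    obtain ⟨i, hi, hv⟩ := Pool.Agent.H398.Kt.charTwo_final G M h1 h2
    refine key i ?_ hv
    calc 4 = 2 ^ 2 := by norm_num
      _ ≤ 2 ^ i := Nat.pow_le_pow_right (by norm_num) hi
  · by_cases hsd : ∃ P Q : Ob k G, P.IsProj ∧ Q.IsProj ∧ (M.prod P).Iso (M.dual.prod Q)
    · left
      obtain ⟨n, ⟨h4, a1, a2, a3⟩, hv⟩ := part2 p M hsd h1 h2
      obtain ⟨i, rfl⟩ := a1 hp
      exact key i h4 hv
    · rcases odd_main p hp M hM h2 with hE | ⟨i, L, P, hi, hL, hP, hiso, _, hv⟩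
      · exact Or.inr ⟨hp, hsd, M, hE, h1.ne', Or.inl rfl⟩
      · by_cases hLg : L.gamma = 1
        · exact Or.inl (key i hi (hv hLg))
        · exact Or.inr ⟨hp, hsd, L, hL, hLg, Or.inr ⟨P, hP, hiso⟩⟩

end Pool.Agent.Results.MP_13b5a2_al.AllPrimes
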