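import Pool.Agent.H398.Kt.MainC

/-!
# MP_13b5a2_al, characteristic 2: Q1 and Q2 for all finite groups and all modules
-/

set_option autoImplicit false

namespace Pool.Agent.Results.MP_13b5a2_al.CharTwo

open Pool.Agent.H398.Gam Ob

universe u v

theorem result (k : Type u) [Field k] [CharP k 2] (G : Type v) [Group G] [Fintype G]
    (M : Ob k G) (h1 : 1 < M.gamma) (h2 : M.gamma < 2) :
    (∃ i : ℕ, 2 ≤ i ∧ M.gamma = 2 * Real.cos (Real.pi / (2 ^ i : ℕ))) ∧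
      (∀ n : ℕ, 4 ≤ n → M.gamma = 2 * Real.cos (Real.pi / n) → ∃ i : ℕ, n = 2 ^ i) := by
  obtain ⟨i, hi, hv⟩ := Pool.Agent.H398.Kt.charTwo_final G M h1 h2
  refine ⟨⟨i, hi, hv⟩, fun n hn hn' => ⟨i, ?_⟩⟩
  have hpi := Real.pi_pos
  have hn0 : (4 : ℝ) ≤ n := by exact_mod_cast hn
  have hN1 : 1 ≤ 2 ^ i := Nat.one_le_two_pow
  have hN0 : (1 : ℝ) ≤ ((2 ^ i : ℕ) : ℝ) := by exact_mod_cast hN1
  have h3 : Real.cos (Real.pi / n) = Real.cos (Real.pi / (2 ^ i : ℕ)) := by linarith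
  have h4 : Real.pi / n = Real.pi / (2 ^ i : ℕ) := by
    apply Real.injOn_cos _ _ h3
    · exact ⟨by positivity, div_le_self hpi.le (by linarith)⟩
    · exact ⟨by positivity, div_le_self hpi.le hN0⟩
  have h5 : (n : ℝ) = ((2 ^ i : ℕ) : ℝ) := by
    have hn1 : (n : ℝ) ≠ 0 := by positivity
    have hn2 : ((2 ^ i : ℕ) : ℝ) ≠ 0 := by positivity
    rw [div_eq_div_iff hn1 hn2] at h4
    have := mul_left_cancel₀ hpi.ne' h4
    exact this.symm
  exact_mod_cast h5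

end Pool.Agent.Results.MP_13b5a2_al.CharTwo
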