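import Pool.Agent.H398.Gam.Assemble2

/-!
# MP_13b5a2_al, odd primes: the values of the gamma invariant below 2

`Ob k G` (file `Pool/Agent/H398/Gam/Defs.lean`) is a finite-dimensional representation of `G` over
`k`; `gamma` is the limsup of the `n`-th roots of the dimension of the core of the `n`-th tensor
power.
-/

set_option autoImplicit false

namespace Pool.Agent.Results.MP_13b5a2_al.OddPrimes

open Pool.Agent.H398.Gam Ob

universe u v

theorem result (p : ℕ) [Fact p.Prime] (hp : p ≠ 2) (k : Type u) [Field k] [CharP k p]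
    (G : Type v) [Group G] [Fintype G] (M : Ob k G) (hM : ¬ M.IsProj) (h2 : M.gamma < 2) :
    (M.Endotrivial ∨ ∃ (i : ℕ) (L P : Ob k G), 4 ≤ p ^ i ∧ L.Endotrivial ∧ P.IsProj ∧
      (M.dual.tens L).Iso (M.prod P) ∧
      (M.tens M.dual).gamma = (2 * Real.cos (Real.pi / (p ^ i : ℕ))) ^ 2 ∧
      (L.gamma = 1 → M.gamma = 2 * Real.cos (Real.pi / (p ^ i : ℕ)))) ∧
    ((∀ L : Ob k G, L.Endotrivial → L.gamma = 1) → 1 < M.gamma →
      ∃ i : ℕ, 4 ≤ p ^ i ∧ M.gamma = 2 * Real.cos (Real.pi / (p ^ i : ℕ)) ∧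
        ∀ n : ℕ, 4 ≤ n → M.gamma = 2 * Real.cos (Real.pi / n) → n = p ^ i) := by
  refine ⟨odd_main p hp M hM h2, fun hend h1 => ?_⟩
  obtain ⟨i, hi, hv⟩ := part4 p hp M hend h1 h2
  refine ⟨i, hi, hv, fun n hn h => ?_⟩
  exact cos_inj _ _ (by omega) (by omega) (by rw [← h, hv])

end Pool.Agent.Results.MP_13b5a2_al.OddPrimes
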