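import Pool.Agent.H398.Gam.Assemble2

/-!
# MP_13b5a2_al, all modules, all primes: the values of `γ(M ⊗ M^*)` below 4
-/

set_option autoImplicit false

namespace Pool.Agent.Results.MP_13b5a2_al.TensorDual

open Pool.Agent.H398.Gam Ob

universe u v

theorem result (p : ℕ) [Fact p.Prime] (k : Type u) [Field k] [CharP k p]
    (G : Type v) [Group G] [Fintype G] (M : Ob k G) (hM : ¬ M.IsProj) :
    (M.gamma < 2 → (M.tens M.dual).gamma < 4) ∧
    ((M.tens M.dual).gamma < 4 → M.Endotrivial ∨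
      ∃ n : ℕ, 4 ≤ n ∧ (M.tens M.dual).gamma = (2 * Real.cos (Real.pi / n)) ^ 2 ∧
        (p ≠ 2 → ∃ i : ℕ, n = p ^ i) ∧ (p = 2 → Even M.dim → ∃ i : ℕ, n = 2 ^ i) ∧
        (p = 2 → Odd M.dim → ∃ i : ℕ, n = 3 * 2 ^ i)) := by
  refine ⟨gamma_tensDual_lt M hM, fun h4 => ?_⟩
  rcases tensDual_main p M hM h4 with h | ⟨n, ⟨b1, b2, b3, b4⟩, hv⟩
  · exact Or.inl h
  · exact Or.inr ⟨n, b1, hv, b2, b3, b4⟩

end Pool.Agent.Results.MP_13b5a2_al.TensorDual
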